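import Pool.Agent.MP_3ce0a0_al.H79.XS
import Pool.Agent.MP_3ce0a0_al.H79.All

/-
Components of fixed subgraphs as classes of automorphisms of finite order.
-/

namespace Pool.Agent.MP_3ce0a0_al.H44

open Pool.Agent.MP_3ce0a0_al.H79 Pool.Agent.MP_3ce0a0_al.H76 Pool.Agent.MP_3ce0a0_al.H16
  Pool.Agent.MP_3ce0a0_al.H87

/-- the extension acts on a tree. -/
theorem cov {G : Type} [Group G] [Finite G] {m : ℕ} (hm : 2 ≤ m) (ψ : G →* Out (FG m)) :
    ∃ (V Ed V' Ed' : Type) (_ : MulAction (PB ψ) V) (_ : MulAction (PB ψ) Ed)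
      (_ : MulAction G V') (_ : MulAction G Ed') (_ : Fintype V') (_ : Fintype Ed')
      (o t : Ed → V) (side : Ed → Set V) (o' t' : Ed' → V') (pv : V → V') (pe : Ed → Ed')
      (p : V → Ed' → ℂ) (j : HV m →ₗ[ℂ] (Ed' → ℂ)),
      Cov ψ (iota ψ) o t side o' t' pv pe p j := by
  have hinj := iota_inj hm ψ
  have hker : (iota ψ).range = (proj ψ).ker := by
    ext e
    rw [mem_range_iota, MonoidHom.mem_ker]
  have hnorm : (iota ψ).range.Normal := by rw [hker]; infer_instance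
  have hfi : (iota ψ).range.FiniteIndex := by rw [hker]; infer_instance
  obtain ⟨𝒞, h𝒞⟩ := H3.scut (PB ψ) m (iota ψ) hinj hnorm hfi
  have htf : ∀ f ∈ (iota ψ).range, ∀ j : ℕ, 0 < j → f ^ j = 1 → f = 1 := by
    rintro _ ⟨x, rfl⟩ j hj hx
    rw [← map_pow, map_eq_one_iff _ hinj] at hx
    rw [(pow_eq_one_iff_left hj.ne').1 hx, map_one]
  have hnt : ∃ f ∈ (iota ψ).range, f ≠ 1 := by
    refine ⟨iota ψ (FreeGroup.of ⟨0, by omega⟩), ⟨_, rfl⟩, ?_⟩
    rw [Ne, map_eq_one_iff _ hinj]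
    exact FreeGroup.of_ne_one _
  obtain ⟨V, Ed, iV, iE, o, t, side, hT, hC⟩ := H15.stree (PB ψ) (iota ψ).range 𝒞 htf hnt h𝒞
  obtain ⟨V', iV', pv, hpv, hpv1, hpv2⟩ :=
    exists_quot (X := V) (proj ψ) (proj_surj ψ) _ (mem_range_iota ψ)
  obtain ⟨Ed', iE', pe, hpe, hpe1, hpe2⟩ :=
    exists_quot (X := Ed) (proj ψ) (proj_surj ψ) _ (mem_range_iota ψ)
  have desc : ∀ a : Ed → V, (∀ (g : PB ψ) e, a (g • e) = g • a e) →
      ∃ a' : Ed' → V', ∀ e, a' (pe e) = pv (a e) := by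
    intro a ha
    refine ⟨fun e' => pv (a (Function.surjInv hpe e')), fun e => ?_⟩
    obtain ⟨f, hf, hfe⟩ := (hpe1 _ _).1 (Function.surjInv_eq hpe (pe e))
    exact (hpv1 _ _).2 ⟨f, hf, by rw [← ha, hfe]⟩
  obtain ⟨o', ho'⟩ := desc o hT.1
  obtain ⟨t', ht'⟩ := desc t hT.2.1
  have : Finite Ed' := by
    obtain ⟨R, hR, hRe⟩ := hC.2.1
    rw [← Set.finite_univ_iff]
    refine (hR.image pe).subset fun e' _ => ?_
    obtain ⟨e, rfl⟩ := hpe e'
    obtain ⟨f, hf, r, hr, rfl⟩ := hRe e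
    exact ⟨r, hr, (hpe1 _ _).2 ⟨f, hf, rfl⟩⟩
  have : Finite V' := by
    rw [← Set.finite_univ_iff]
    refine ((Set.finite_range o').union (Set.finite_range t')).subset fun v' _ => ?_
    obtain ⟨v, rfl⟩ := hpv v'
    obtain ⟨e, -, -, he | he, -⟩ := hC.2.2 v
    · exact Or.inl ⟨pe e, by rw [ho', he]⟩
    · exact Or.inr ⟨pe e, by rw [ht', he]⟩
  let _ : Fintype V' := Fintype.ofFinite V'
  let _ : Fintype Ed' := Fintype.ofFinite Ed'
  have hQ : Quo (iota ψ).range o t o' t' pv pe := ⟨hpv, hpe, hpv1, hpe1, ho', ht'⟩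
  obtain ⟨hL, hV, p, j, hH⟩ :=
    H21.sqa (PB ψ) m (iota ψ) V Ed V' Ed' o t side o' t' pv pe hinj hT hC hQ
  exact ⟨V, Ed, V', Ed', iV, iE, iV', iE', inferInstance, inferInstance, o, t, side, o', t', pv,
    pe, p, j, iota_val ψ, hinj, hT, hC, hQ, hpv2, hpe2, hH, hL, hV⟩

/-- classes of automorphisms up to conjugation by inner ones. -/
abbrev Cl (m : ℕ) : Type := Quotient (cs (Inn (FG m)))

section key
variable {G : Type} [Group G] {m : ℕ} {ψ : G →* Out (FG m)} {ι : FG m →* PB ψ}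
  {V Ed V' Ed' : Type} [MulAction (PB ψ) V] [MulAction (PB ψ) Ed] [MulAction G V']
  [MulAction G Ed'] [Fintype V'] [Fintype Ed'] {o t : Ed → V} {side : Ed → Set V}
  {o' t' : Ed' → V'} {pv : V → V'} {pe : Ed → Ed'} {p : V → Ed' → ℂ}
  {j : HV m →ₗ[ℂ] (Ed' → ℂ)}

theorem zp {E X : Type} [Group E] [MulAction E X] {k : E} {w : X} (h : k • w = w) :
    ∀ k' ∈ Subgroup.zpowers k, k' • w = w := fun _ hk' =>
  (Subgroup.zpowers_le (H := MulAction.stabilizer _ _)).2 h hk'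

omit [Fintype Ed'] in
theorem zedge (k : PB ψ) (e : Ed') :
    k.1.1 • e = e ↔ ∀ k' ∈ Subgroup.zpowers k, k'.1.1 • e = e :=
  ⟨fun f _ hk' => (Subgroup.zpowers_le (H := (MulAction.stabilizer G e).comap (qq ψ))).2 f hk',
    fun f => f k (Subgroup.mem_zpowers k)⟩

theorem key (c : Cov ψ ι o t side o' t' pv pe p j) (k k' : PB ψ) (w w' : V)
    (a : k'.1.1 = k.1.1) (b : k • w = w) (b' : k' • w' = w') :
    ((⟦k.1.2⟧ : Cl m) = ⟦k'.1.2⟧ ↔ Lnk o' t' (fun e => k.1.1 • e = e) (pv w) (pv w')) := by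
  obtain ⟨hι, -, hT, -, hQ, ev, ee, -⟩ := id c
  constructor
  · intro h
    obtain ⟨_, ⟨x, rfl⟩, e⟩ := Quotient.exact h
    have e1 : k' = ι x * k * (ι x)⁻¹ := Subtype.ext (Prod.ext (by simp [hι, a]) (by
      simp only [e, hι, Subgroup.coe_mul, Subgroup.coe_inv, Prod.snd_mul, Prod.snd_inv]))
    have l := (H70.sfix _ V Ed o t side hT).2 (Subgroup.zpowers k) w ((ι x)⁻¹ • w') (zp b) (zp (by
      rw [eq_inv_smul_iff, ← mul_smul, ← mul_smul, ← e1, b']))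
    rw [← (hQ.2.2.1 ((ι x)⁻¹ • w') w').2 ⟨_, ⟨x, rfl⟩, smul_inv_smul _ _⟩]
    refine l.lift pv ?_
    rintro u v ⟨d, hd, h⟩
    refine ⟨pe d, show k.1.1 • pe d = pe d by rw [← ee, hd k (Subgroup.mem_zpowers k)], ?_⟩
    rw [hQ.2.2.2.2.1, hQ.2.2.2.2.2]
    exact h.imp (fun h => ⟨by rw [h.1], by rw [h.2]⟩) fun h => ⟨by rw [h.1], by rw [h.2]⟩
  · intro h
    obtain ⟨w₀, e₀, h₀⟩ :=
      (comp (H62.scomp H70.sfix) c (Subgroup.zpowers k) w (zp b) _ (zedge k)).1 _ h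
    obtain ⟨_, ⟨y, rfl⟩, rfl⟩ := (hQ.2.2.1 w₀ w').1 e₀
    rw [lift_uniq c (k := k') (k' := ι y * k * (ι y)⁻¹) (by simp [hι, a]) b'
      (by rw [mul_smul, inv_smul_smul, mul_smul, h₀ k (Subgroup.mem_zpowers k)])]
    exact Quotient.sound ⟨_, ⟨y, rfl⟩, by
      simp only [hι, Subgroup.coe_mul, Subgroup.coe_inv, Prod.snd_mul, Prod.snd_inv]⟩

omit [Fintype V'] in
theorem fin_of_fix [Finite G] (c : Cov ψ ι o t side o' t' pv pe p j) {k : PB ψ} {w : V}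
    (b : k • w = w) : IsOfFinOrder k.1.2 :=
  isOfFinOrder_iff_pow_eq_one.2 ⟨_, orderOf_pos k.1.1, congrArg (fun z : PB ψ => z.1.2)
    (lift_uniq c (k := k ^ orderOf k.1.1) (k' := 1) (by simp)
      (zp b _ (Subgroup.npow_mem_zpowers _ _)) (one_smul _ _))⟩

omit [Fintype V'] in
theorem fix_of_fin [Finite G] (c : Cov ψ ι o t side o' t' pv pe p j) {k : PB ψ}
    (b : IsOfFinOrder k.1.2) : ∃ w : V, k • w = w := by
  have f : IsOfFinOrder k := by
    rw [← Subgroup.subtype_injective _ |>.isOfFinOrder_iff (f := (PB ψ).subtype)]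
    exact (isOfFinOrder_of_finite _).prod_mk b
  obtain ⟨w, hw⟩ := (H70.sfix _ V Ed o t side c.2.2.1).1 _ f.finite_zpowers
  exact ⟨w, hw k (Subgroup.mem_zpowers k)⟩

end key

/-- classes of automorphisms of finite order. -/
abbrev Om (m : ℕ) : Type := {ω : Cl m // ∃ α, IsOfFinOrder α ∧ ⟦α⟧ = ω}

variable {m : ℕ}

theorem pres (y : Out (FG m)) (ω : Cl m) (h : ∃ α, IsOfFinOrder α ∧ ⟦α⟧ = ω) :
    ∃ α, IsOfFinOrder α ∧ ⟦α⟧ = act _ y ω := by
  obtain ⟨α, h, rfl⟩ := h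
  obtain ⟨γ, rfl⟩ := QuotientGroup.mk_surjective y
  exact ⟨γ * α * γ⁻¹, (MulAut.conj γ).toMonoidHom.isOfFinOrder h, rfl⟩

/-- the action on the classes of finite order. -/
def actO : Out (FG m) →* Equiv.Perm (Om m) where
  toFun y :=
    { toFun := fun ω => ⟨act _ y ω.1, pres y ω.1 ω.2⟩
      invFun := fun ω => ⟨act _ y⁻¹ ω.1, pres y⁻¹ ω.1 ω.2⟩
      left_inv := fun ω => Subtype.ext (by simp)
      right_inv := fun ω => Subtype.ext (by simp) }
  map_one' := Equiv.ext fun ω => Subtype.ext (by simp)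
  map_mul' a b := Equiv.ext fun ω => Subtype.ext (by simp)

theorem actO_val (y : Out (FG m)) (ω : Om m) : (actO y ω).1 = act _ y ω.1 := rfl

/-- the outer class. -/
def ovc : Cl m → Out (FG m) :=
  Quotient.lift QuotientGroup.mk fun a b ⟨i, hi, e⟩ => by
    rw [e, QuotientGroup.mk_mul, QuotientGroup.mk_mul, QuotientGroup.mk_inv,
      (QuotientGroup.eq_one_iff i).2 hi, one_mul, inv_one, mul_one]

/-- the span of the fixed words. -/
def phc (ω : Cl m) : Submodule ℂ (HV m) :=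
  Submodule.span ℂ {y | ∃ β x, ⟦β⟧ = ω ∧ β x = x ∧ y = ab x}

theorem phc_mk {G : Type} [Group G] {ψ : G →* Out (FG m)} (k : PB ψ) :
    phc ⟦k.1.2⟧ =
      Submodule.span ℂ {y | ∃ x, y = ab x ∧ ∀ k' ∈ Subgroup.zpowers k, k'.1.2 x = x} := by
  refine congrArg _ (Set.ext fun y => ⟨?_, ?_⟩)
  · rintro ⟨β, x, e, hx, rfl⟩
    obtain ⟨_, ⟨z, rfl⟩, rfl⟩ := Quotient.exact e.symm
    refine ⟨(MulAut.conj z)⁻¹ x, (ab_conj z x).symm, fun k' hk' => ?_⟩
    refine (Subgroup.zpowers_le (H := (MulAction.stabilizer (MulAut (FG m))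
      ((MulAut.conj z)⁻¹ x)).comap ((MonoidHom.snd _ _).comp (PB ψ).subtype))).2 ?_ hk'
    change k.1.2 _ = _
    rw [← (MulAut.conj z).injective.eq_iff, MulAut.apply_inv_self]
    exact hx
  · rintro ⟨x, rfl, hx⟩
    exact ⟨k.1.2, x, rfl, hx k (Subgroup.mem_zpowers k), rfl⟩

theorem sgeo : X.SGeo := by
  classical
  intro m hm
  obtain ⟨π, hπ⟩ := H21.srep m
  refine ⟨LinearEquiv.automorphismGroup.toLinearMapMonoidHom.comp π,
    ⟨⟨Om m, actO, fun ω => ovc ω.1, fun ω => phc ω.1, ?_, ?_, fun K hK => ?_⟩⟩⟩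
  · rintro y ⟨_, α, -, rfl⟩
    obtain ⟨γ, rfl⟩ := QuotientGroup.mk_surjective y
    rfl
  · rintro y ⟨_, α, h, rfl⟩ v hv
    obtain ⟨γ, rfl⟩ := QuotientGroup.mk_surjective y
    refine Submodule.mem_comap.1 ((Submodule.span_le (p := Submodule.comap _ _)).2 ?_ hv)
    rintro _ ⟨β, x, e, hx, rfl⟩
    refine Submodule.subset_span ⟨γ * β * γ⁻¹, γ x, ?_, ?_, hπ γ x⟩
    · rw [actO_val, ← act_mk, e]
    · rw [MulAut.mul_apply, MulAut.inv_apply_self, MulAut.mul_apply, hx]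
  obtain ⟨V, Ed, V', Ed', _, _, iV, iE, fV, fE, o, t, side, o', t', pv, pe, p, j, c⟩ :=
    cov hm K.subtype
  obtain ⟨a1, a2, a3, a4, a5, a6, a7, a8, a9⟩ :=
    H62.sra K m π K.subtype _ V Ed V' Ed' o t side o' t' pv pe p j hπ c
  obtain ⟨-, -, -, -, hQ, ev, ee, -⟩ := id c
  choose s hs using hQ.1
  choose κ k1 k2 using fun (g : K) (v : V') (h : g • v = v) =>
    lift_fix c (g := g) (v := s v) (by rw [hs, h])
  let q : K → V' → Om m := fun g v =>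
    if h : g • v = v then ⟨⟦(κ g v h).1.2⟧, _, fin_of_fix c (k2 g v h), rfl⟩
    else ⟨⟦1⟧, 1, IsOfFinOrder.one, rfl⟩
  have qv : ∀ g v h, (q g v).1 = ⟦(κ g v h).1.2⟧ := fun g v h => by simp only [q, dif_pos h]
  have fx : ∀ (k : PB K.subtype) (w : V), k • w = w → k.1.1 • pv w = pv w := fun k w b => by
    rw [← ev, b]
  have hq : ∀ (k : PB K.subtype) (w : V), k • w = w → (q k.1.1 (pv w)).1 = ⟦k.1.2⟧ :=
    fun k w b => by
      rw [qv _ _ (fx k w b), eq_comm]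
      exact (key c k _ w _ (k1 _ _ _) b (k2 _ _ _)).2 (by rw [hs]; exact .refl)
  have hl : ∀ (g : K) u v, g • u = u → g • v = v →
      (q g u = q g v ↔ Lnk o' t' (fun e => g • e = e) u v) := fun g u v hu hv => by
    have := key c _ _ _ _ ((k1 g v hv).trans (k1 g u hu).symm) (k2 g u hu) (k2 g v hv)
    rw [k1, hs, hs, ← qv, ← qv] at this
    exact Subtype.ext_iff.trans this
  have ex : ∀ (g : K) (ω : Om m), ovc ω.1 = g →
      ∃ (k : PB K.subtype) (w : V), k.1.1 = g ∧ k • w = w ∧ ⟦k.1.2⟧ = ω.1 := by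
    rintro g ⟨_, α, h, rfl⟩ e
    obtain ⟨w, hw⟩ := fix_of_fin c (k := ⟨(g, α), e.symm⟩) h
    exact ⟨_, w, rfl, hw, rfl⟩
  refine ⟨V', Ed', iV, iE, fV, fE, o', t', j, q, a1, a2, a3, a4, a5, a6, a7, a8,
    fun g h => Subtype.ext (a9 g h), fun g v h => ?_, fun g ω e => ?_, hl, fun d g v h => ?_,
    fun g ω e h => ?_⟩
  · rw [qv g v h]
    exact (pb_mk _).symm.trans (congrArg K.subtype (k1 g v h))
  · obtain ⟨k, w, rfl, b, e'⟩ := ex g ω e
    exact ⟨pv w, fx k w b, Subtype.ext ((hq k w b).trans e')⟩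
  · obtain ⟨k, rfl⟩ := qq_surj (ψ := K.subtype) d
    have := hq (k * κ g v h * k⁻¹) (k • s v) (by rw [mul_smul, inv_smul_smul, mul_smul, k2])
    rw [ev, hs, show (k * κ g v h * k⁻¹).1.1 = k.1.1 * g * k.1.1⁻¹ by simp [k1]] at this
    refine Subtype.ext (Eq.trans ?_ this.symm)
    rw [actO_val, qv g v h]
    exact (congrArg (fun y => act _ y _) (pb_mk k)).trans (act_mk _ _ _)
  · obtain ⟨k, w, rfl, b, e'⟩ := ex g ω e
    change h ∈ phc ω.1 ↔ _
    rw [← e', phc_mk,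
      ← (comp (H62.scomp H70.sfix) c (Subgroup.zpowers k) w (zp b) _ (zedge k)).2 h]
    refine forall₂_congr fun e _ => and_congr_right fun he => ?_
    rw [← hl _ _ _ (fx k w b) (by rw [← a1, he]), eq_comm,
      show q k.1.1 (pv w) = ω from Subtype.ext ((hq k w b).trans e')]

end Pool.Agent.MP_3ce0a0_al.H44
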